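import Pool.Agent.MP_993212_an.H18.WSpec

/-! Rows CLEAN and EMB of the positive normal form. -/

namespace Pool.Agent.MP_993212_an.H18

open Matrix Polynomial Finset H16 H92 H15

variable {I G : Type} [Fintype I] [DecidableEq I] [AddCommGroup G] [Module ℤ[X] G]

theorem clean_vp {N : Matrix I I ℤ[X]} (h : Hs N) : VP (1 - N) 0 := by
  refine ⟨fun i j k => by simp, by ext i j; simp [H92.cf],
    ⟨N, 0, h.1, fun i j k => by simp, by simp⟩, ?_⟩
  have h0 : ∀ i j, (N i j).coeff 0 = 0 := fun i j => congrFun (congrFun h.2 i) j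
  have : (1 - H92.cf 0 (1 - N) : Matrix I I ℤ) = 0 := by
    ext i j
    by_cases hij : i = j
    · subst hij; simp [H92.cf, h0]
    · simp [H92.cf, h0, Matrix.one_apply_ne hij]
  rw [this]; exact IsNilpotent.zero

theorem clean_mul {a b : ℤ[X]} (ha : N1 a) (hb : N1 b) : N1 (a * b) := fun k => by
  rw [coeff_mul]; exact sum_nonneg fun x _ => mul_nonneg (ha _) (hb _)

theorem clean_add {a b : ℤ[X]} (ha : N1 a) (hb : N1 b) : N1 (a + b) := fun k => by
  rw [coeff_add]; exact add_nonneg (ha _) (hb _)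

omit [Fintype I] [DecidableEq I] in
theorem clean_sum {T : Finset I} {f : I → ℤ[X]} (h : ∀ i ∈ T, N1 (f i)) : N1 (∑ i ∈ T, f i) :=
  fun k => by rw [finsetSum_coeff]; exact sum_nonneg fun i hi => h i hi k

theorem clean_ne {a b : ℤ[X]} (ha : N1 a) (hab : N1 (b - a)) (h : a ≠ 0) : b ≠ 0 := by
  rintro rfl
  refine h (Polynomial.ext fun k => ?_)
  have h1 := ha k
  have h2 := hab k
  simp only [zero_sub, coeff_neg] at h2
  simp only [coeff_zero]; omega

theorem clean_eq {a : ℤ[X]} (ha : N1 a) (hb : N1 (-a)) : a = 0 := by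
  by_contra h
  exact clean_ne (b := 0) ha (by simpa using hb) h rfl

/-- what every push keeps -/
structure CleanR (ρ η : ℝ) (z : I) (p : I → ℝ) (ξ : I → G) (N N' : Matrix I I ℤ[X]) : Prop where
  eq : Eq0 N ξ N' ξ
  hs : Hs N'
  cert : Cert ρ η z N' p
  keep : Keep ∅ N N'
  mono : ∀ u l, l = z ∨ N l l ≠ 0 → N u l ≠ 0 → N' u l ≠ 0

variable {ρ η : ℝ} {z : I} {p : I → ℝ} {ξ : I → G} {N N' N'' : Matrix I I ℤ[X]}

theorem CleanR.rel (h : CleanR ρ η z p ξ N N') : act (1 - N') ξ = 0 := h.eq.rel'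

theorem CleanR.refl (h : Hs N) (r : act (1 - N) ξ = 0) (c : Cert ρ η z N p) :
    CleanR ρ η z p ξ N N :=
  ⟨Eqv.refl (clean_vp h) r, h, c, fun _ _ => ⟨id, id⟩, fun _ _ _ => id⟩

theorem CleanR.trans (h : CleanR ρ η z p ξ N N') (g : CleanR ρ η z p ξ N' N'') :
    CleanR ρ η z p ξ N N'' :=
  ⟨Eqv.trans h.eq g.eq, g.hs, g.cert,
    fun j hj => ⟨fun s => (g.keep j hj).1 ((h.keep j hj).1 s),
      fun s => (g.keep j hj).2 ((h.keep j hj).2 s)⟩,
    fun u l hl hu => g.mono u l (hl.imp id fun hl' => h.mono l l (Or.inr hl') hl') (h.mono u l hl hu)⟩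

theorem CleanR.src (h : CleanR ρ η z p ξ N N') {j : I} (s : Src N j) : Src N' j :=
  (h.keep j (Set.notMem_empty j)).1 s

theorem CleanR.snk (h : CleanR ρ η z p ξ N N') {j : I} (s : Snk N j) : Snk N' j :=
  (h.keep j (Set.notMem_empty j)).2 s

theorem CleanR.loop (h : CleanR ρ η z p ξ N N') {j : I} (s : N j j ≠ 0) : N' j j ≠ 0 :=
  h.mono j j (Or.inr s) s

theorem clean_push (hP : PushStmt) (h : Hs N) (r : act (1 - N) ξ = 0) (c : Cert ρ η z N p)
    (h0 : 0 ≤ ρ) (h1 : 0 < η) (a : I) (S : Finset I) (n : ℕ) (ha : a ∉ S) (hz : z ∉ S) :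
    ∃ N', CleanR ρ η z p ξ N N' ∧ (∀ u, u ≠ a → N' u = N u) ∧
      (∀ l, l ∉ S → N a l ≠ 0 → N' a l ≠ 0) ∧ (∀ l ∈ S, X ^ n ∣ N' a l) ∧
      (1 ≤ n → ∀ u ∈ S, N a u ≠ 0 → N u z ≠ 0 → N' a z ≠ 0) ∧
      (1 ≤ n → ∀ u, S = {u} → N u u = 0 → N' a u = 0) := by
  obtain ⟨N', d, e1, hs', hrow, hf, dn, dS, dge, dsnk, dsrc, -, hdiv, hpow, hc⟩ :=
    hP I G N ξ a S n h r ha
  have nn : ∀ i j, N1 (N i j) := fun i j => h.1 i j
  have out : ∀ l, l ∉ S → N a l ≠ 0 → N' a l ≠ 0 := fun l hl hne => by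
    refine clean_ne (nn a l) ?_ hne
    rw [hf, dS l hl, sub_zero, add_sub_cancel_left]
    exact clean_sum fun u _ => clean_mul (dn u) (nn u l)
  have hpw : ∀ (l : I) (k : ℕ), N1 (N l l ^ k) := fun l k => by
    induction k with
    | zero => intro i; rw [pow_zero, coeff_one]; split_ifs <;> simp
    | succ k ih => rw [pow_succ]; exact clean_mul ih (nn l l)
  refine ⟨N', ⟨e1, hs', (hc ρ η z p h0 h1 hz c).1, fun j _ => ⟨fun s u => ?_, fun s l => ?_⟩,
    fun u l hl hu => ?_⟩, hrow, out, hdiv, fun hn u hu hau huz => ?_, fun hn u hS huu => ?_⟩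
  · by_cases hu : u = a
    · subst hu
      rw [hf, dsrc j s, s u, sub_zero, zero_add]
      exact sum_eq_zero fun v _ => by rw [s v, mul_zero]
    · rw [hrow u hu]; exact s u
  · by_cases hu : j = a
    · subst hu
      rw [hf, dsnk s, s l]; simp
    · rw [hrow j hu]; exact s l
  · by_cases hu' : u = a
    · subst hu'
      by_cases hlS : l ∈ S
      · have hll : N l l ≠ 0 := hl.resolve_left fun e => hz (e ▸ hlS)
        exact clean_ne (clean_mul (nn u l) (hpw l n)) (hpow l hlS)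
          (mul_ne_zero hu (pow_ne_zero _ hll))
      · exact out l hlS hu
    · rw [hrow u hu']; exact hu
  · have hd : d u ≠ 0 := clean_ne (nn a u) (dge hn u hu) hau
    refine clean_ne (clean_mul (dn u) (nn u z)) ?_ (mul_ne_zero hd huz)
    rw [hf, dS z hz, sub_zero, ← add_sum_erase _ _ (mem_univ u)]
    have : N a z + (d u * N u z + ∑ x ∈ univ.erase u, d x * N x z) - d u * N u z =
        N a z + ∑ x ∈ univ.erase u, d x * N x z := by ring
    rw [this]
    exact clean_add (nn a z) (clean_sum fun v _ => clean_mul (dn v) (nn v z))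
  · have e : N' a u = N a u - d u := by
      rw [hf, sum_eq_zero, add_zero]
      intro v _
      by_cases hv : v = u
      · rw [hv, huu, mul_zero]
      · rw [dS v (by rw [hS]; simpa using hv), zero_mul]
    refine clean_eq (hs'.1 a u) ?_
    rw [e, neg_sub]
    exact dge hn u (by rw [hS]; exact mem_singleton_self u)

omit [Fintype I] [DecidableEq I] in
theorem clean_edge {j : I} (h : Relation.TransGen (fun u v => N u v ≠ 0) j z) :
    j ≠ z → N j z = 0 → ∃ a l, a ≠ z ∧ N a z = 0 ∧ N a l ≠ 0 ∧ N l z ≠ 0 ∧ l ≠ z := by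
  induction h using Relation.TransGen.head_induction_on with
  | single h => exact fun _ e => absurd e h
  | @head u v huv _ ih =>
    intro hu e
    have hv : v ≠ z := fun e' => huv (e' ▸ e)
    by_cases hvz : N v z = 0
    · exact ih hv hvz
    · exact ⟨u, v, hu, e, huv, hvz, hv⟩

open Classical in
theorem clean_one (hP : PushStmt) (h0 : 0 ≤ ρ) (h1 : 0 < η) (n : ℕ) :
    ∀ N : Matrix I I ℤ[X], Hs N → act (1 - N) ξ = 0 → Cert ρ η z N p → Inv0 z N →
      (univ.filter fun j => N j z = 0).card ≤ n →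
      ∃ N', CleanR ρ η z p ξ N N' ∧ (∀ j, j ≠ z → Snk N' j ∨ N' j z ≠ 0) ∧
        ∀ j, j ≠ z → Src N' j ∨ N' z j ≠ 0 := by
  induction n with
  | zero =>
    intro N h r c i hn
    refine ⟨N, CleanR.refl h r c, fun j _ => Or.inr fun e => ?_, i.inn⟩
    have := card_pos.2 ⟨j, (mem_filter (p := fun j => N j z = 0)).2 ⟨mem_univ j, e⟩⟩
    omega
  | succ n ih =>
    intro N h r c i hn
    by_cases hall : ∀ j, j ≠ z → Snk N j ∨ N j z ≠ 0
    · exact ⟨N, CleanR.refl h r c, hall, i.inn⟩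
    push Not at hall
    obtain ⟨j, hj, hs, hjz⟩ := hall
    obtain ⟨a, l, haz, ha0, hal, hlz, hl⟩ := clean_edge ((i.out j hj).resolve_left hs) hj hjz
    have hne : a ≠ l := fun e => hlz (e ▸ ha0)
    obtain ⟨N', R, hrow, -, -, hnew, -⟩ := clean_push hP h r c h0 h1 a {l} 1
      (by simpa using hne) (by simpa using hl.symm)
    have hz' : N' a z ≠ 0 := hnew le_rfl l (mem_singleton_self l) hal hlz
    have i' : Inv0 z N' := by
      refine ⟨fun u hu => (i.out u hu).imp R.snk fun t => ?_, fun u hu => (i.inn u hu).imp R.src ?_,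
        i.ex.imp fun u hu => ⟨hu.1, R.loop hu.2⟩⟩
      · clear hu
        induction t using Relation.TransGen.head_induction_on with
        | single t => exact .single (R.mono _ z (Or.inl rfl) t)
        | @head u v huv _ ih' =>
          by_cases hu : u = a
          · exact .single (hu ▸ hz')
          · exact .head (by rw [hrow u hu]; exact huv) ih'
      · rw [hrow z haz.symm]; exact id
    have hc : (univ.filter fun j => N' j z = 0).card ≤ n := by
      have : (univ.filter fun j => N' j z = 0) ⊂ univ.filter fun j => N j z = 0 := by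
        refine (ssubset_iff_of_subset fun u hu => ?_).2 ⟨a, by simpa using ha0, by simpa using hz'⟩
        rw [mem_filter] at hu ⊢
        exact ⟨hu.1, by_contra fun e => R.mono u z (Or.inl rfl) e hu.2⟩
      have := card_lt_card this
      omega
    obtain ⟨N'', R', q⟩ := ih N' R.hs R.rel R.cert i' hc
    exact ⟨N'', R.trans R', q⟩

theorem clean_src (hP : PushStmt) (h0 : 0 ≤ ρ) (h1 : 0 < η) (h : Hs N) (r : act (1 - N) ξ = 0)
    (c : Cert ρ η z N p) {j : I} (hj : j ≠ z) (hjj : N j j = 0) (A : Finset I) :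
    ∃ N', CleanR ρ η z p ξ N N' ∧ N' j j = 0 ∧ (∀ u ∈ A, N' u j = 0) ∧
      ∀ l, l ≠ j → N z l ≠ 0 → N' z l ≠ 0 := by
  induction A using Finset.induction_on with
  | empty => exact ⟨N, CleanR.refl h r c, hjj, by simp, fun _ _ => id⟩
  | insert u A _ ih =>
    obtain ⟨N', R, e, hA, hz⟩ := ih
    by_cases hu : u = j
    · exact ⟨N', R, e, fun v hv => (mem_insert.1 hv).elim (fun q => by rw [q, hu, e]) (hA v), hz⟩
    obtain ⟨N'', R', hrow, hout, -, -, hk⟩ := clean_push hP R.hs R.rel R.cert h0 h1 u {j} 1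
      (by simpa using hu) (by simpa using hj.symm)
    have e' : N'' u j = 0 := hk le_rfl j rfl e
    refine ⟨N'', R.trans R', by rw [hrow j (Ne.symm hu), e], fun v hv => ?_, fun l hl q => ?_⟩
    · by_cases hvu : v = u
      · rw [hvu, e']
      · rw [hrow v hvu]; exact hA v ((mem_insert.1 hv).resolve_left hvu)
    · by_cases hzu : z = u
      · subst hzu; exact hout l (by simpa using hl) (hz l hl q)
      · rw [hrow z hzu]; exact hz l hl q

theorem clean_two (hP : PushStmt) (h0 : 0 ≤ ρ) (h1 : 0 < η) (h : Hs N) (r : act (1 - N) ξ = 0)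
    (c : Cert ρ η z N p) (i : ∀ j, j ≠ z → Src N j ∨ N z j ≠ 0) (A : Finset I) :
    ∃ N', CleanR ρ η z p ξ N N' ∧ (∀ j, j ≠ z → Src N' j ∨ N' z j ≠ 0) ∧
      ∀ j ∈ A, j ≠ z → Src N' j ∨ N' j j ≠ 0 := by
  induction A using Finset.induction_on with
  | empty => exact ⟨N, CleanR.refl h r c, i, by simp⟩
  | insert j A _ ih =>
    obtain ⟨N', R, i', hA⟩ := ih
    by_cases hj : j ≠ z ∧ N' j j = 0
    · obtain ⟨N'', R', -, hs, hz⟩ := clean_src hP h0 h1 R.hs R.rel R.cert hj.1 hj.2 univ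
      have s : Src N'' j := fun u => hs u (mem_univ u)
      refine ⟨N'', R.trans R', fun l hl => ?_, fun l hl hlz => ?_⟩
      · by_cases e : l = j
        · exact Or.inl (e ▸ s)
        · exact (i' l hl).imp R'.src (hz l e)
      · rcases mem_insert.1 hl with e | hl
        · exact Or.inl (e ▸ s)
        · exact (hA l hl hlz).imp R'.src R'.loop
    · refine ⟨N', R, i', fun l hl hlz => ?_⟩
      rcases mem_insert.1 hl with e | hl
      · subst e; exact Or.inr fun q => hj ⟨hlz, q⟩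
      · exact hA l hl hlz

theorem clean_three (hP : PushStmt) (h0 : 0 ≤ ρ) (h1 : 0 < η) (h : Hs N) (r : act (1 - N) ξ = 0)
    (c : Cert ρ η z N p) (L : ℕ) (A : Finset I) :
    ∃ N', CleanR ρ η z p ξ N N' ∧ ∀ u ∈ A, ∀ l, l ≠ z → u ≠ l → X ^ L ∣ N' u l := by
  induction A using Finset.induction_on with
  | empty => exact ⟨N, CleanR.refl h r c, by simp⟩
  | insert a A _ ih =>
    obtain ⟨N', R, hA⟩ := ih
    obtain ⟨N'', R', hrow, -, hd, -, -⟩ := clean_push hP R.hs R.rel R.cert h0 h1 a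
      ((univ.erase a).erase z) L (by simp) (by simp)
    refine ⟨N'', R.trans R', fun u hu l hl hul => ?_⟩
    by_cases e : u = a
    · subst e; exact hd l (by simp [hl, hul.symm])
    · rw [hrow u e]; exact hA u ((mem_insert.1 hu).resolve_left e) l hl hul

theorem clean_of (hP : PushStmt) : CleanStmt := by
  intro I G _ _ _ _ N ξ z ρ η p L h r h0 h1 c i
  obtain ⟨N₁, R₁, o₁, i₁⟩ := clean_one hP h0 h1 _ N h r c i le_rfl
  obtain ⟨N₂, R₂, i₂, s₂⟩ := clean_two hP h0 h1 R₁.hs R₁.rel R₁.cert i₁ univ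
  obtain ⟨N₃, R₃, d₃⟩ := clean_three hP h0 h1 R₂.hs R₂.rel R₂.cert L univ
  have R := (R₁.trans R₂).trans R₃
  have R' := R₂.trans R₃
  refine ⟨N₃, R.eq, ⟨R.hs, ⟨p, R.cert⟩, ⟨fun j hj => (o₁ j hj).imp R'.snk (R'.mono j z (Or.inl rfl)),
    fun j hj => ?_, i.ex.imp fun u hu => ⟨hu.1, R.loop hu.2⟩⟩, fun u => d₃ u (mem_univ u)⟩, R.keep⟩
  rcases s₂ j (mem_univ j) hj with s | s
  · exact Or.inl (R₃.src s)
  · exact (i₂ j hj).imp R₃.src fun q => ⟨R₃.mono z j (Or.inr s) q, R₃.loop s⟩

theorem emb_of (hM : Moves) : EmbStmt := by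
  intro J I G _ _ _ _ _ _ N ξ z ρ η p e N' ξ' he hs hsub hsrc hξ r hη c i hsnk hz
  have hN : ∀ a b, N' (e a) (e b) = N a b := fun a b => by rw [← hsub]; rfl
  have n0 : nz ρ 0 = 0 := by rw [nz_eq (T := ∅) (by simp)]; simp
  refine ⟨?_, ?_, ?_, ?_, ?_⟩
  · have := hM.sub G I J (1 - N') 0 ξ' e he (clean_vp hs) r fun a b hb =>
      ⟨by rw [Matrix.sub_apply, hsrc b hb a, sub_zero], rfl⟩
    have e1 : (1 - N').submatrix e e = 1 - N := by
      ext a b : 2
      rw [submatrix_apply, Matrix.sub_apply, Matrix.sub_apply, hN, Matrix.one_apply,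
        Matrix.one_apply]
      by_cases hab : a = b
      · rw [if_pos hab, if_pos (congrArg e hab)]
      · rw [if_neg hab, if_neg fun q => hab (he q)]
    rw [e1, hξ] at this
    exact this.symm
  · classical
    let s : I → ℝ := fun j => ∑ l ∈ univ.erase z, nz ρ (N' j (e l)) * p l
    let p' : I → ℝ := Function.extend e p fun j => (|s j| + 1) / (1 - η)
    have pe : ∀ l, p' (e l) = p l := fun l => he.extend_apply _ _ l
    have pn : ∀ j, j ∉ Set.range e → p' j = (|s j| + 1) / (1 - η) := fun j hj =>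
      Function.extend_apply' _ _ j hj
    have hη' : 0 < 1 - η := sub_pos.2 hη
    have key : ∀ j, ∑ l ∈ univ.erase (e z), nz ρ (N' j l) * p' l = s j := fun j => by
      symm
      refine sum_of_injOn e he.injOn (fun l hl => ?_) (fun l hl hl' => ?_) fun l _ => by rw [pe]
      · simpa using fun q => (mem_erase.1 hl).1 (he q)
      · have : l ∉ Set.range e := by
          rintro ⟨m, rfl⟩
          exact hl' ⟨m, by simpa using fun q => (mem_erase.1 hl).1 (congrArg e q), rfl⟩
        rw [hsrc l this j, n0, zero_mul]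
    refine ⟨p', fun j => ?_, fun j hj => ?_⟩
    · by_cases q : j ∈ Set.range e
      · obtain ⟨m, rfl⟩ := q; rw [pe]; exact c.1 m
      · rw [pn j q]; positivity
    · rw [key]
      by_cases q : j ∈ Set.range e
      · obtain ⟨m, rfl⟩ := q
        rw [pe]
        simp only [s, hN]
        exact c.2 m fun q => hj (congrArg e q)
      · rw [pn j q, mul_div_cancel₀ _ hη'.ne']
        linarith [le_abs_self (s j)]
  · have lift : ∀ m, m ≠ z → Relation.TransGen (fun u v => N' u v ≠ 0) (e m) (e z) := fun m hm => by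
      have t := (i.out m hm).resolve_left (hsnk m)
      clear hm
      induction t using Relation.TransGen.head_induction_on with
      | single t => exact .single (by rwa [hN])
      | head t _ ih => exact .head (by rwa [hN]) ih
    intro j hj
    by_cases q : Snk N' j
    · exact Or.inl q
    refine Or.inr ?_
    by_cases q' : j ∈ Set.range e
    · obtain ⟨m, rfl⟩ := q'
      exact lift m fun q => hj (congrArg e q)
    obtain ⟨l, hl⟩ := not_forall.1 q
    obtain ⟨m, rfl⟩ : l ∈ Set.range e := by_contra fun q => hl (hsrc l q j)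
    by_cases hm : m = z
    · exact .single (hm ▸ hl)
    · exact .head hl (lift m hm)
  · intro j hj
    by_cases q : j ∈ Set.range e
    · obtain ⟨m, rfl⟩ := q
      exact Or.inr (by rw [hN]; exact hz m fun q => hj (congrArg e q))
    · exact Or.inl (hsrc j q)
  · obtain ⟨m, hm, q⟩ := i.ex
    exact ⟨e m, fun q => hm (he q), by rwa [hN]⟩

end Pool.Agent.MP_993212_an.H18
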